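import Pool.Agent.Lib.MP_49fa77_co.H30.Iface2

/-!
# Board ft, row UN: the union inequality for general `n`
-/

set_option autoImplicit false

namespace FT58.AS.H96

open Real MeasureTheory Set ENNReal Metric Filter FT58 FT58.AS

lemma dt_smul_sub (l : ℝ) (v w e : ℂ) : dt ((l : ℂ) * v - (l : ℂ) * w) e = l * dt (v - w) e := by
  simp only [dt, Complex.sub_re, Complex.sub_im, Complex.mul_re, Complex.mul_im,
    Complex.ofReal_re, Complex.ofReal_im]
  ring

lemma union_eps {n : ℕ} (hn : 1 ≤ n) {D : ℝ} (hD : 0 ≤ D) {c : Fin n → ℂ} {δ : ℝ} (hδ : 0 < δ)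
    {e : ℂ}
    (hcore : ∀ S cl p t, Lb c δ e S cl p t →
      0 ≤ S.card * (2 * kap D) + sE S (Eg S) (val2 D S)) {B : ℝ} (hB : ∀ i, ‖c i‖ ≤ B)
    (T : Finset ℂ)
    (hsep : ∀ v ∈ T, ∀ w ∈ T, v ≠ w → ∀ i j, 2 ≤ ‖(c i + v) - (c j + w)‖)
    (hdir : ∀ v ∈ T, ∀ w ∈ T, v ≠ w → 8 * δ * ‖e‖ < |dt (v - w) e|)
    {ε : ℝ} (h0 : 0 < ε) (h1 : ε < 1) (h2 : ε + (1 / (1 - ε) - 1) * B < δ)
    (h3 : ∀ i j, ‖c i - c j‖ < 2 → (1 / (1 - ε)) * ‖c i - c j‖ + 2 * ε < 2) :
    volume (⋃ x ∈ T ×ˢ (Finset.univ : Finset (Fin n)), closedBall (c x.2 + x.1) ((1 - ε) ^ 2))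
      ≤ ENNReal.ofReal D * volume (⋃ x ∈ T ×ˢ (Finset.univ : Finset (Fin n)),
        closedBall (c x.2 + x.1) (2 / √3)) := by
  classical
  rcases T.eq_empty_or_nonempty with rfl | hT
  · simp
  have : Nonempty (Fin n) := ⟨⟨0, hn⟩⟩
  set s : Finset (ℂ × Fin n) := T ×ˢ Finset.univ with hs
  set l : ℝ := 1 / (1 - ε) with hl
  have h1ε : 0 < 1 - ε := by linarith
  have hl0 : 0 < l := by positivity
  have hl1 : 1 ≤ l := by
    rw [hl, le_div_iff₀ h1ε]; linarith
  have hl2 : (1 + ε) ≤ l := by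
    rw [hl, le_div_iff₀ h1ε]; nlinarith
  obtain ⟨p', hp1, hp2, hp3⟩ := exists_generic (fun x : ℂ × Fin n => (l : ℂ) * (c x.2 + x.1)) h0 s
  have hms : ∀ v ∈ T, ∀ i, ((v, i) : ℂ × Fin n) ∈ s := by
    intro v hv i
    rw [hs, Finset.mem_product]; exact ⟨hv, Finset.mem_univ _⟩
  apply eps_transfer s (fun x => c x.2 + x.1) p' h0 h1 hp1
  set S := s.image p' with hS
  have hne : S.Nonempty := by
    obtain ⟨v, hv⟩ := hT
    exact ⟨p' (v, ⟨0, hn⟩), Finset.mem_image_of_mem _ (hms v hv _)⟩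
  set g : ℂ → ℂ × Fin n := Function.invFunOn p' s with hg
  have hgp : ∀ i ∈ s, g (p' i) = i := by
    intro i hi
    exact hp2.leftInvOn_invFunOn (Finset.mem_coe.mpr hi)
  have hlab : Lb c δ e S (fun x => (g x).1) (fun v i => p' (v, i)) (fun v => (l : ℂ) * v) := by
    refine ⟨hp3, hne, hδ, ?_, ?_, ?_, ?_, ?_, ?_⟩
    · intro x hx y hy hne
      obtain ⟨a, ha, rfl⟩ := Finset.mem_image.mp hx
      obtain ⟨b, hb, rfl⟩ := Finset.mem_image.mp hy
      rw [hgp a ha, hgp b hb] at hne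
      have ha' := (Finset.mem_product.mp ha).1
      have hb' := (Finset.mem_product.mp hb).1
      have k2 := hsep a.1 ha' b.1 hb' hne a.2 b.2
      have k3 := hp1 a ha
      have k4 := hp1 b hb
      set pa := c a.2 + a.1 with hpa
      set pb := c b.2 + b.1 with hpb
      have k5 : ‖(l : ℂ) * pa - (l : ℂ) * pb‖ = l * ‖pa - pb‖ := by
        rw [← mul_sub, norm_mul, Complex.norm_real, norm_eq_abs, abs_of_pos hl0]
      have k6 : ‖(l : ℂ) * pa - (l : ℂ) * pb‖ ≤ ‖p' b - p' a‖ + ‖p' a - (l : ℂ) * pa‖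
          + ‖p' b - (l : ℂ) * pb‖ := by
        have e : (l : ℂ) * pa - (l : ℂ) * pb = -(p' b - p' a) + -(p' a - (l : ℂ) * pa)
            + (p' b - (l : ℂ) * pb) := by ring
        rw [e]
        refine (norm_add_le _ _).trans ?_
        have := norm_add_le (-(p' b - p' a)) (-(p' a - (l : ℂ) * pa))
        rw [norm_neg, norm_neg] at this
        linarith
      have k7 : 2 + 2 * ε ≤ l * ‖pa - pb‖ := by
        nlinarith
      linarith
    · intro x hx y
      obtain ⟨a, ha, rfl⟩ := Finset.mem_image.mp hx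
      show (y ∈ S ∧ (g y).1 = (g (p' a)).1) ↔ ∃ i, y = p' ((g (p' a)).1, i)
      rw [hgp a ha]
      have ha' := (Finset.mem_product.mp ha).1
      constructor
      · rintro ⟨hy, hya⟩
        obtain ⟨b, hb, rfl⟩ := Finset.mem_image.mp hy
        rw [hgp b hb] at hya
        exact ⟨b.2, by rw [← hya]⟩
      · rintro ⟨i, rfl⟩
        exact ⟨Finset.mem_image_of_mem _ (hms _ ha' i), by rw [hgp _ (hms _ ha' i)]⟩
    · intro x hx
      obtain ⟨a, ha, rfl⟩ := Finset.mem_image.mp hx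
      have ha' := (Finset.mem_product.mp ha).1
      intro i j hij
      have hij' : p' ((g (p' a)).1, i) = p' ((g (p' a)).1, j) := hij
      rw [hgp a ha] at hij'
      have := hp2 (Finset.mem_coe.mpr (hms _ ha' i)) (Finset.mem_coe.mpr (hms _ ha' j)) hij'
      exact (Prod.mk.inj this).2
    · intro x hx i
      obtain ⟨a, ha, rfl⟩ := Finset.mem_image.mp hx
      have ha' := (Finset.mem_product.mp ha).1
      show ‖p' ((g (p' a)).1, i) - (l : ℂ) * (g (p' a)).1 - c i‖ < δ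
      rw [hgp a ha]
      have k1 := hp1 _ (hms _ ha' i)
      have e : p' (a.1, i) - (l : ℂ) * a.1 - c i
          = (p' (a.1, i) - (l : ℂ) * (c i + a.1)) + ((l - 1 : ℝ) : ℂ) * c i := by
        push_cast; ring
      rw [e]
      refine lt_of_le_of_lt (norm_add_le _ _) ?_
      rw [norm_mul, Complex.norm_real, norm_eq_abs, abs_of_nonneg (by linarith)]
      have k2 : (l - 1) * ‖c i‖ ≤ (l - 1) * B := mul_le_mul_of_nonneg_left (hB i) (by linarith)
      have k1' : ‖p' (a.1, i) - (l : ℂ) * (c i + a.1)‖ < ε := k1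
      linarith
    · intro x hx i j
      obtain ⟨a, ha, rfl⟩ := Finset.mem_image.mp hx
      have ha' := (Finset.mem_product.mp ha).1
      show ‖p' ((g (p' a)).1, i) - p' ((g (p' a)).1, j)‖ < 2 ↔ ‖c i - c j‖ < 2
      rw [hgp a ha]
      have k1 : ‖p' (a.1, i) - (l : ℂ) * (c i + a.1)‖ < ε := hp1 _ (hms _ ha' i)
      have k2 : ‖p' (a.1, j) - (l : ℂ) * (c j + a.1)‖ < ε := hp1 _ (hms _ ha' j)
      have e1 : (l : ℂ) * (c i - c j) = (l : ℂ) * (c i + a.1) - (l : ℂ) * (c j + a.1) := by ring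
      have e2 : ‖(l : ℂ) * (c i - c j)‖ = l * ‖c i - c j‖ := by
        rw [norm_mul, Complex.norm_real, norm_eq_abs, abs_of_pos hl0]
      have k3 : l * ‖c i - c j‖ ≤ ‖p' (a.1, i) - p' (a.1, j)‖
          + ‖p' (a.1, i) - (l : ℂ) * (c i + a.1)‖ + ‖p' (a.1, j) - (l : ℂ) * (c j + a.1)‖ := by
        rw [← e2, e1]
        have e : (l : ℂ) * (c i + a.1) - (l : ℂ) * (c j + a.1) = (p' (a.1, i) - p' (a.1, j))
            + -(p' (a.1, i) - (l : ℂ) * (c i + a.1)) + (p' (a.1, j) - (l : ℂ) * (c j + a.1)) := by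
          ring
        rw [e]
        refine (norm_add_le _ _).trans ?_
        have := norm_add_le (p' (a.1, i) - p' (a.1, j)) (-(p' (a.1, i) - (l : ℂ) * (c i + a.1)))
        rw [norm_neg] at this
        linarith
      have k4 : ‖p' (a.1, i) - p' (a.1, j)‖ ≤ l * ‖c i - c j‖
          + ‖p' (a.1, i) - (l : ℂ) * (c i + a.1)‖ + ‖p' (a.1, j) - (l : ℂ) * (c j + a.1)‖ := by
        rw [← e2, e1]
        have e : p' (a.1, i) - p' (a.1, j) = ((l : ℂ) * (c i + a.1) - (l : ℂ) * (c j + a.1))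
            + (p' (a.1, i) - (l : ℂ) * (c i + a.1)) + -(p' (a.1, j) - (l : ℂ) * (c j + a.1)) := by
          ring
        conv_lhs => rw [e]
        refine (norm_add_le _ _).trans ?_
        have := norm_add_le ((l : ℂ) * (c i + a.1) - (l : ℂ) * (c j + a.1))
          (p' (a.1, i) - (l : ℂ) * (c i + a.1))
        rw [norm_neg]
        linarith
      constructor
      · intro h
        by_contra hcon
        push Not at hcon
        have k5 : 2 + 2 * ε ≤ l * ‖c i - c j‖ := by nlinarith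
        linarith
      · intro h
        have k5 := h3 i j h
        linarith
    · intro x hx y hy hne
      obtain ⟨a, ha, rfl⟩ := Finset.mem_image.mp hx
      obtain ⟨b, hb, rfl⟩ := Finset.mem_image.mp hy
      show 8 * δ * ‖e‖ < |dt ((l : ℂ) * (g (p' a)).1 - (l : ℂ) * (g (p' b)).1) e|
      rw [hgp a ha, hgp b hb] at hne ⊢
      have ha' := (Finset.mem_product.mp ha).1
      have hb' := (Finset.mem_product.mp hb).1
      have k := hdir a.1 ha' b.1 hb' hne
      rw [dt_smul_sub, abs_mul, abs_of_pos hl0]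
      have k2 : (1 : ℝ) * |dt (a.1 - b.1) e| ≤ l * |dt (a.1 - b.1) e| :=
        mul_le_mul_of_nonneg_right hl1 (abs_nonneg _)
      linarith
  have h4 := hcore S _ _ _ hlab
  exact union_of_sum hD hne (h4.trans (total2 hD hp3))

/-- The union inequality, with the core inequality only for small `δ`. -/
theorem un_small (hDi : DiS) (n : ℕ) (c : Fin n → ℂ) (D δ₀ : ℝ) (hn : 1 ≤ n) (hD : 0 ≤ D)
    (hδ₀ : 0 < δ₀)
    (hcore : ∀ (δ : ℝ) (e : ℂ) (S : Finset ℂ) (cl : ℂ → ℂ) (p : ℂ → Fin n → ℂ) (t : ℂ → ℂ),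
      δ < δ₀ → Lb c δ e S cl p t → 0 ≤ S.card * (2 * kap D) + sE S (Eg S) (val2 D S))
    (T : Finset ℂ) (hsep : ∀ v ∈ T, ∀ w ∈ T, v ≠ w → ∀ i j, 2 ≤ ‖(c i + v) - (c j + w)‖) :
    volume (⋃ x ∈ T ×ˢ (Finset.univ : Finset (Fin n)), closedBall (c x.2 + x.1) 1)
      ≤ ENNReal.ofReal D * volume (⋃ x ∈ T ×ˢ (Finset.univ : Finset (Fin n)),
        closedBall (c x.2 + x.1) (2 / √3)) := by
  classical
  obtain ⟨d, -, hd⟩ := hDi T 0 1 one_pos
  -- the size of `δ`
  obtain ⟨δ, hδ, hδ1, hdir⟩ : ∃ δ : ℝ, 0 < δ ∧ δ < δ₀ ∧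
      ∀ v ∈ T, ∀ w ∈ T, v ≠ w → 8 * δ * ‖d‖ < |dt (v - w) d| := by
    have hev : ∀ᶠ x in nhdsWithin (0 : ℝ) (Ioi 0), ∀ a ∈ T ×ˢ T, a.1 ≠ a.2 →
        8 * x * ‖d‖ < |dt (a.1 - a.2) d| := by
      rw [Finset.eventually_all]
      intro a ha
      by_cases hne : a.1 = a.2
      · exact Eventually.of_forall fun x hx => absurd hne hx
      · have ha1 := (Finset.mem_product.mp ha).1
        have ha2 := (Finset.mem_product.mp ha).2
        have hpos : 0 < |dt (a.1 - a.2) d| := abs_pos.mpr (hd _ ha1 _ ha2 hne)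
        have hlim : Tendsto (fun x : ℝ => 8 * x * ‖d‖) (nhdsWithin 0 (Ioi 0))
            (nhds (8 * 0 * ‖d‖)) := by
          apply Tendsto.mono_left _ nhdsWithin_le_nhds
          exact Continuous.tendsto (by fun_prop) 0
        have h2 := hlim.eventually_lt_const (u := |dt (a.1 - a.2) d|) (by simpa using hpos)
        exact h2.mono fun x hx _ => hx
    have hev2 : ∀ᶠ x in nhdsWithin (0 : ℝ) (Ioi 0), x < δ₀ :=
      nhdsWithin_le_nhds (eventually_lt_nhds hδ₀)
    have hev3 : ∀ᶠ x in nhdsWithin (0 : ℝ) (Ioi 0), 0 < x := eventually_mem_nhdsWithin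
    obtain ⟨x, h1, h2, h3⟩ := (hev.and (hev2.and hev3)).exists
    exact ⟨x, h3, h2, fun v hv w hw hne => h1 (v, w) (Finset.mem_product.mpr ⟨hv, hw⟩) hne⟩
  set B : ℝ := ∑ i, ‖c i‖ with hB
  have hBi : ∀ i, ‖c i‖ ≤ B := fun i => Finset.single_le_sum (f := fun i => ‖c i‖)
    (fun i _ => norm_nonneg _) (Finset.mem_univ i)
  set s : Finset (ℂ × Fin n) := T ×ˢ Finset.univ with hs
  set p : ℂ × Fin n → ℂ := fun x => c x.2 + x.1 with hp
  set e : ℕ → ℝ := fun m => 1 / ((m : ℝ) + 2) with he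
  have he0 : ∀ m, 0 < e m := fun m => by simp only [he]; positivity
  have he1 : ∀ m, e m < 1 := by
    intro m
    simp only [he]
    rw [div_lt_one (by positivity)]
    have : (0 : ℝ) ≤ m := Nat.cast_nonneg m
    linarith
  have hanti : Antitone e := by
    intro a b hab
    simp only [he]
    apply div_le_div_of_nonneg_left one_pos.le (by positivity)
    have : (a : ℝ) ≤ b := by exact_mod_cast hab
    linarith
  have helim : Tendsto e atTop (nhds 0) := by
    simp only [he]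
    apply Tendsto.div_atTop tendsto_const_nhds
    exact tendsto_atTop_add_const_right _ _ tendsto_natCast_atTop_atTop
  set A : ℕ → Set ℂ := fun m => ⋃ i ∈ s, closedBall (p i) ((1 - e m) ^ 2) with hA
  have hmono : Monotone A := by
    intro a b hab
    simp only [hA]
    apply iUnion₂_mono
    intro i _
    apply closedBall_subset_closedBall
    have h1 := hanti hab
    have h2 := he1 a
    have h3 : 0 ≤ 1 - e a := by linarith
    gcongr
  have hdivlim : Tendsto (fun m => 1 / (1 - e m)) atTop (nhds (1 / (1 - 0))) := by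
    apply Filter.Tendsto.div tendsto_const_nhds (tendsto_const_nhds.sub helim)
    norm_num
  have hev : ∀ᶠ m in atTop, e m + (1 / (1 - e m) - 1) * B < δ := by
    have h1 : Tendsto (fun m => e m + (1 / (1 - e m) - 1) * B) atTop
        (nhds (0 + (1 / (1 - 0) - 1) * B)) := by
      apply helim.add
      apply Filter.Tendsto.mul_const
      exact hdivlim.sub_const _
    apply h1.eventually_lt_const
    simpa using hδ
  have hev' : ∀ᶠ m in atTop, ∀ i j, ‖c i - c j‖ < 2 →
      (1 / (1 - e m)) * ‖c i - c j‖ + 2 * e m < 2 := by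
    rw [eventually_all]
    intro i
    rw [eventually_all]
    intro j
    by_cases hlt : ‖c i - c j‖ < 2
    · have h1 : Tendsto (fun m => (1 / (1 - e m)) * ‖c i - c j‖ + 2 * e m) atTop
          (nhds ((1 / (1 - 0)) * ‖c i - c j‖ + 2 * 0)) :=
        (hdivlim.mul_const _).add (helim.const_mul 2)
      have h2 := h1.eventually_lt_const (u := 2) (by simpa using hlt)
      exact h2.mono fun m hm _ => hm
    · exact Eventually.of_forall fun m hm => absurd hm hlt
  obtain ⟨m₀, hm₀⟩ := eventually_atTop.mp (hev.and hev')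
  have hsup : volume (⋃ m, A m) ≤ ENNReal.ofReal D * volume (⋃ i ∈ s, closedBall (p i) (2 / √3)) := by
    rw [hmono.measure_iUnion]
    apply iSup_le
    intro m
    refine (measure_mono (hmono (le_max_left m m₀))).trans ?_
    have hm := hm₀ _ (le_max_right m m₀)
    exact union_eps hn hD hδ (fun S cl p t h => hcore δ d S cl p t hδ1 h) hBi T hsep hdir (he0 _)
      (he1 _) hm.1 hm.2
  have hball : (⋃ i ∈ s, ball (p i) 1) ⊆ ⋃ m, A m := by
    intro x hx
    simp only [mem_iUnion] at hx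
    obtain ⟨i, hi, hx⟩ := hx
    rw [mem_ball] at hx
    have hlim : Tendsto (fun m => (1 - e m) ^ 2) atTop (nhds ((1 - 0) ^ 2)) := by
      apply Filter.Tendsto.pow
      exact Filter.Tendsto.sub tendsto_const_nhds helim
    have hev : ∀ᶠ m in atTop, dist x (p i) < (1 - e m) ^ 2 := by
      apply hlim.eventually_const_lt
      simpa using hx
    obtain ⟨m, hm⟩ := hev.exists
    rw [mem_iUnion]
    refine ⟨m, ?_⟩
    simp only [hA, mem_iUnion]
    exact ⟨i, hi, hm.le⟩
  have hsph : volume (⋃ i ∈ s, sphere (p i) 1) = 0 := by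
    have h := measure_biUnion_finset_le (μ := (volume : Measure ℂ)) s (fun i => sphere (p i) 1)
    have h0 : ∑ i ∈ s, (volume : Measure ℂ) (sphere (p i) 1) = 0 := by
      apply Finset.sum_eq_zero
      intro i _
      exact Measure.addHaar_sphere _ _ _
    rw [h0] at h
    exact le_antisymm h bot_le
  have hsub : (⋃ i ∈ s, closedBall (p i) (1 : ℝ)) ⊆ (⋃ i ∈ s, ball (p i) 1)
      ∪ (⋃ i ∈ s, sphere (p i) 1) := by
    intro x hx
    simp only [mem_union, mem_iUnion] at hx ⊢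
    obtain ⟨i, hi, hx⟩ := hx
    rw [← ball_union_sphere] at hx
    rcases hx with hx | hx
    · exact Or.inl ⟨i, hi, hx⟩
    · exact Or.inr ⟨i, hi, hx⟩
  calc volume (⋃ i ∈ s, closedBall (p i) 1)
      ≤ volume ((⋃ i ∈ s, ball (p i) 1) ∪ (⋃ i ∈ s, sphere (p i) 1)) := measure_mono hsub
    _ ≤ volume (⋃ i ∈ s, ball (p i) 1) + volume (⋃ i ∈ s, sphere (p i) 1) := measure_union_le _ _
    _ = volume (⋃ i ∈ s, ball (p i) 1) := by rw [hsph, add_zero]
    _ ≤ volume (⋃ m, A m) := measure_mono hball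
    _ ≤ _ := hsup

/-- The strong form of row UN. -/
theorem un2_st (hDi : DiS) : Un2S := by
  intro n c D δ₀ hn hD hδ₀ hcore T hsep
  exact un_small hDi n c D δ₀ hn hD hδ₀ hcore T hsep

/-- Row UN. -/
theorem un_st (hDi : DiS) : UnS := by
  intro n c D hn hD hcore T hsep
  exact un_small hDi n c D 1 hn hD one_pos (fun δ e S cl p t _ h => hcore δ e S cl p t h) T hsep

end FT58.AS.H96
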