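import Pool.Agent.Lib.MP_49fa77_co.H30.Iface3

/-!
# Board ft, row GE: area against the square of the length
-/

set_option autoImplicit false

namespace FT58.AS.H96

open Real MeasureTheory Set Metric Filter Relation FT58 FT58.AS

/-- Row GE. -/
theorem ge_st (hC2 : C2S) (hLA : LaS) (hCT : CtS) : GeS := by
  classical
  intro n c
  rcases Nat.eq_zero_or_pos n with hn | hn
  · -- no configuration
    subst hn
    refine ⟨1, one_pos, ?_⟩
    intro δ e S cl p t _ _ h
    exfalso
    obtain ⟨x, hx⟩ := h.ne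
    obtain ⟨i, -⟩ := (h.mem x hx x).mp ⟨hx, rfl⟩
    exact i.elim0
  obtain ⟨x0, hx0, hmax⟩ := Finset.exists_max_image
    (((Finset.univ : Finset (Fin n)) ×ˢ (Finset.univ : Finset (Fin n))).filter
      (fun x => Ic c x.1 x.2)) (fun x => ‖c x.1 - c x.2‖)
    ⟨(⟨0, hn⟩, ⟨0, hn⟩), by
      rw [Finset.mem_filter]
      exact ⟨Finset.mem_product.mpr ⟨Finset.mem_univ _, Finset.mem_univ _⟩, ReflTransGen.refl⟩⟩
  have hW1 : ∀ i j, Ic c i j → ‖c i - c j‖ ≤ ‖c x0.1 - c x0.2‖ := by
    intro i j hij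
    refine hmax (i, j) ?_
    rw [Finset.mem_filter]
    exact ⟨Finset.mem_product.mpr ⟨Finset.mem_univ _, Finset.mem_univ _⟩, hij⟩
  have hW2 : Ic c x0.1 x0.2 := (Finset.mem_filter.mp hx0).2
  obtain ⟨W, hW⟩ : ∃ W : ℝ, W = ‖c x0.1 - c x0.2‖ := ⟨_, rfl⟩
  rw [← hW] at hW1
  have hWn : 0 ≤ W := by rw [hW]; exact norm_nonneg _
  have hL0 : ∀ S : Finset ℂ, 0 ≤ sE S (Ou S) ln := by
    intro S
    unfold sE
    refine Finset.sum_nonneg fun a _ => Finset.sum_nonneg fun b _ => ?_
    split_ifs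
    · exact norm_nonneg _
    · exact le_rfl
  rcases eq_or_lt_of_le hWn with h0 | h0
  · -- `W = 0`
    refine ⟨1 / 10, by norm_num, ?_⟩
    intro δ e S cl p t hδ he h1 h2
    left
    obtain ⟨hd, -⟩ := hC2 n c δ W e S cl p t h1 h2 he hW1 ⟨x0.1, x0.2, hW2, hW.symm⟩
    rw [← h0, zero_add] at hd
    have hδ0 := h1.pos
    have hX := hLA S (6 * δ) h1.gen (fun x hx y hy hxy => by
      have := hd x hx y hy hxy
      linarith)
    have hct := hCT S h1.gen h1.ne ∅ (Finset.empty_subset _) (by simp)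
    rw [Finset.card_empty, Nat.cast_zero, mul_zero, add_zero] at hct
    have hct2 : (nE S (Ou S) : ℝ) ≤ 2 * S.card := by
      have h3 : (0 : ℝ) ≤ nE S (Lf (MX S S)) / 3 := by positivity
      have h4 : (nE S (Ou S) : ℝ) = (nE S (fun c q => Se S c q ∧ ¬ Lf (MX S S) c q) : ℝ) := rfl
      rw [h4]
      linarith
    have hLam : sE S (Ou S) ln ≤ 6 * δ * nE S (Ou S) := by
      have h3 : sE S (Ou S) ln ≤ sE S (Ou S) (fun _ _ => 6 * δ) := by
        unfold sE
        refine Finset.sum_le_sum fun a ha => Finset.sum_le_sum fun b hb => ?_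
        split_ifs with h4
        · have h5 : ReflTransGen (Hg S) b a :=
            ReflTransGen.single ⟨hb, ha, Or.inl (Se_symm h4.1)⟩
          have h6 := hd b hb a ha h5
          unfold ln
          linarith
        · exact le_rfl
      have h4 : sE S (Ou S) (fun _ _ => 6 * δ) = 6 * δ * nE S (Ou S) := by
        rw [← sE_one]
        unfold sE
        rw [Finset.mul_sum]
        refine Finset.sum_congr rfl fun a _ => ?_
        rw [Finset.mul_sum]
        refine Finset.sum_congr rfl fun b _ => ?_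
        split_ifs <;> simp
      rw [← h4]
      exact h3
    have hN : (0 : ℝ) ≤ S.card := Nat.cast_nonneg _
    calc sT S (MX S S) XX / 3 ≤ 6 * δ * sE S (Ou S) ln := hX
      _ ≤ 6 * δ * (6 * δ * (2 * S.card)) := by
          apply mul_le_mul_of_nonneg_left _ (by positivity)
          refine hLam.trans ?_
          exact mul_le_mul_of_nonneg_left hct2 (by positivity)
      _ = 72 * δ ^ 2 * S.card := by ring
      _ ≤ 1 * S.card := by
          apply mul_le_mul_of_nonneg_right _ hN
          nlinarith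
      _ = S.card := one_mul _
  · -- `W > 0`
    refine ⟨W / 24, by positivity, ?_⟩
    intro δ e S cl p t hδ he h1 h2
    right
    obtain ⟨hd, hs⟩ := hC2 n c δ W e S cl p t h1 h2 he hW1 ⟨x0.1, x0.2, hW2, hW.symm⟩
    have hX := hLA S (9 / 4 * W) h1.gen (fun x hx y hy hxy => by
      have := hd x hx y hy hxy
      linarith)
    have hN : (0 : ℝ) ≤ S.card := Nat.cast_nonneg _
    have hL := hL0 S
    have hWN : 3 / 8 * W * S.card ≤ n * sE S (Ou S) ln := by
      refine le_trans ?_ hs
      apply mul_le_mul_of_nonneg_right _ hN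
      linarith
    calc (S.card : ℝ) * (sT S (MX S S) XX / 3) ≤ S.card * (9 / 4 * W * sE S (Ou S) ln) :=
          mul_le_mul_of_nonneg_left hX hN
      _ = 6 * sE S (Ou S) ln * (3 / 8 * W * S.card) := by ring
      _ ≤ 6 * sE S (Ou S) ln * (n * sE S (Ou S) ln) :=
          mul_le_mul_of_nonneg_left hWN (by positivity)
      _ = 6 * n * sE S (Ou S) ln ^ 2 := by ring

end FT58.AS.H96
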